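import Pool.Agent.H101R3.LD.Asm
import Pool.Agent.H101R3.LD.B
import Pool.Agent.H101R3.LD.Sep
import Pool.Agent.H101R3.LD.D
import Pool.Agent.H101R3.LD.E
import Pool.Agent.H101R3.LD.F

/-!
If the atomless part of a measure `μ` is carried by fewer than continuum many sets of finite
measure and `L¹(μ)` is isomorphic to a dual space, then every set of finite positive measure
contains an atom.
-/

set_option autoImplicit false

namespace Pool.Agent.Results.MP_3844f5_an.FewPieces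

open MeasureTheory Set

universe u v w

/-- `A` is an atom of `μ`. -/
def IsAtom {Ω : Type u} [MeasurableSpace Ω] (μ : Measure Ω) (A : Set Ω) : Prop :=
  MeasurableSet A ∧ 0 < μ A ∧ ∀ B ⊆ A, MeasurableSet B → μ B = 0 ∨ μ (A \ B) = 0

/-- Let `μ` be an arbitrary measure, `𝕜 = ℝ` or `ℂ`, and let `E γ` (`γ ∈ Λ`) be fewer than
continuum many measurable sets of finite measure off which `μ` is purely atomic: every measurable
`A` with `0 < μ A < ∞` and `μ (A ∩ E γ) = 0` for all `γ` contains an atom. If `L¹(μ)` is isomorphic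
to the dual of a normed space `X`, then every measurable set of finite positive measure contains
an atom. -/
theorem result (𝕜 : Type) [RCLike 𝕜] {Ω : Type u} [MeasurableSpace Ω] (μ : Measure Ω)
    {Λ : Type v} (hΛ : Cardinal.mk Λ < Cardinal.continuum) (E : Λ → Set Ω)
    (hE : ∀ γ, MeasurableSet (E γ) ∧ μ (E γ) < ⊤)
    (hoff : ∀ A, MeasurableSet A → 0 < μ A → μ A < ⊤ → (∀ γ, μ (A ∩ E γ) = 0) →
      ∃ B ⊆ A, IsAtom μ B)
    (X : Type w) [NormedAddCommGroup X] [NormedSpace 𝕜 X]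
    (hX : Nonempty (Lp 𝕜 1 μ ≃L[𝕜] StrongDual 𝕜 X)) :
    ∀ A, MeasurableSet A → 0 < μ A → μ A < ⊤ → ∃ B ⊆ A, IsAtom μ B := by
  obtain ⟨Φ⟩ := hX
  intro A hA hA0 hAf
  by_contra hcon
  push Not at hcon
  exact Pool.Agent.H101R3.LD.main_of.{u, v, w} Pool.Agent.H101R3.LD.taskB
    Pool.Agent.H101R3.LD.taskSep Pool.Agent.H101R3.LD.taskD Pool.Agent.H101R3.LD.taskE
    Pool.Agent.H101R3.LD.taskF 𝕜 μ hΛ E (fun γ => (hE γ).1) (fun γ => (hE γ).2.ne)
    (fun A h1 h2 h3 h4 => hoff A h1 h2 (lt_top_iff_ne_top.2 h3) h4) A hA hA0 hAf.ne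
    (fun B hB => hcon B hB) X Φ

end Pool.Agent.Results.MP_3844f5_an.FewPieces
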